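import Mathlib
import Pool.Agent.X72.RSR.Stm

set_option autoImplicit false

open MeasureTheory ProbabilityTheory Filter Topology
open scoped ENNReal

namespace Pool.Agent.X190.RSM

open Pool.Agent.X19.SS Pool.Agent.X72.RSR

theorem meas_dist {K : Type} [RCLike K] [MeasurableSpace K] [BorelSpace K] (m p : ℕ) :
    Measurable (fun C : Fin (p + 1) → Fin m → K => dist2 (fun i : Fin p => C i.castSucc) (C (Fin.last p))) := by
  refine UpperSemicontinuous.measurable ?_
  unfold dist2
  refine upperSemicontinuous_iInf fun v => ?_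
  refine Continuous.upperSemicontinuous ?_
  unfold nsq
  refine continuous_finset_sum _ fun i _ => ?_
  refine (ENNReal.continuous_pow 2).comp ?_
  refine continuous_enorm.comp ?_
  simp only [Pi.add_apply, Finset.sum_apply, Pi.smul_apply, smul_eq_mul]
  fun_prop

theorem t_RM : S_RM := by
  intro hD2 hD3 K _ _ _ m p hpm
  refine ⟨meas_dist m p, ?_⟩
  have hprob : IsProbabilityMeasure (gK K (Fin m)) := by unfold gK; infer_instance
  have hmp := measurePreserving_piFinSuccAbove (fun _ : Fin (p + 1) => gK K (Fin m)) (Fin.last p)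
  have hmeas : Measurable (fun z : (Fin m → K) × (Fin p → Fin m → K) => dist2 z.2 z.1) := by
    have h1 := meas_dist (K := K) m p
    have h2 : (fun z : (Fin m → K) × (Fin p → Fin m → K) => dist2 z.2 z.1) =
        (fun C : Fin (p + 1) → Fin m → K => dist2 (fun i : Fin p => C i.castSucc) (C (Fin.last p))) ∘
          (MeasurableEquiv.piFinSuccAbove (fun _ => Fin m → K) (Fin.last p)).symm := by
      funext z
      simp only [Function.comp]
      congr 1
      · funext i
        simp [MeasurableEquiv.piFinSuccAbove, Fin.insertNthEquiv, Fin.insertNth_last', Fin.snoc_castSucc]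
      · simp [MeasurableEquiv.piFinSuccAbove, Fin.insertNthEquiv]
    rw [h2]
    exact h1.comp (MeasurableEquiv.measurable _)
  have h1 : ∫⁻ C, dist2 (fun i : Fin p => C i.castSucc) (C (Fin.last p)) ∂(Measure.pi fun _ : Fin (p + 1) => gK K (Fin m)) =
      ∫⁻ z, dist2 z.2 z.1 ∂((gK K (Fin m)).prod (Measure.pi fun _ : Fin p => gK K (Fin m))) := by
    rw [← hmp.lintegral_comp hmeas]
    refine lintegral_congr fun C => ?_
    congr 1
    funext i
    simp [MeasurableEquiv.piFinSuccAbove, Fin.insertNthEquiv, Fin.init]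
  rw [h1, lintegral_prod_symm' _ hmeas]
  have h2 : ∀ᵐ S ∂(Measure.pi fun _ : Fin p => gK K (Fin m)), ∫⁻ x, dist2 S x ∂(gK K (Fin m)) =
      (Module.finrank ℝ K : ℝ≥0∞) * ((m - p : ℕ) : ℝ≥0∞) := by
    filter_upwards [hD2 K p (Fin m) (by simpa using hpm)] with S hS
    have := hD3 K p (Fin m) S hS (by simpa using hpm)
    simpa using this
  rw [lintegral_congr_ae h2, lintegral_const]
  simp

end Pool.Agent.X190.RSM
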